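import Pool.Agent.Work.MP_2a78db_gt.F1
import Pool.Agent.Work.MP_2a78db_gt.F2
import Pool.Agent.Work.MP_2a78db_gt.D3
import Pool.Agent.Work.MP_2a78db_gt.FDefs2

/-!
A closed simply connected smooth 8-manifold with an almost complex structure and a closed 2-form
whose fourth exterior power is not exact, which has no symplectic form.
-/

namespace Pool.Agent.Results.MP_2a78db_gt.AlmostComplexNotSymplectic

open Pool.Agent.Work.MP_2a78db_gt
open scoped Manifold ContDiff Topology

/-- There is a compact, simply connected, Hausdorff, second countable smooth 8-manifold `M`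
without boundary which admits an almost complex structure and a smooth closed 2-form `α` such
that `α ∧ α ∧ α ∧ α` is not exact, but which admits no symplectic form. -/
theorem result :
    ∃ (M : Type) (_ : TopologicalSpace M) (_ : ChartedSpace (EuclideanSpace ℝ (Fin 8)) M)
      (_ : IsManifold (𝓡 8) ∞ M), T2Space M ∧ SecondCountableTopology M ∧ CompactSpace M ∧
      SimplyConnectedSpace M ∧
      HasAlmostComplexStructure (EuclideanSpace ℝ (Fin 8)) M ∧
      HasNonexactFourthPower (EuclideanSpace ℝ (Fin 8)) M ∧
      ¬ HasSymplecticForm (EuclideanSpace ℝ (Fin 8)) M := by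
  obtain ⟨M, tM, cs, im, t2, sc, cp, scn, ⟨J, hJ1, hJ2⟩, hα, hθ⟩ :=
    main_of (fun D => bridge D) no_family
  exact ⟨M, tM, cs, im, t2, sc, cp, scn, ⟨J, hJ1, hJ2⟩, hα, hθ⟩

end Pool.Agent.Results.MP_2a78db_gt.AlmostComplexNotSymplectic
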